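import Pool.Agent.Helper4.T7.StD

/-!
# Project T7 (levels `7·5^n`), module Cnt: counting the index sets
-/

set_option autoImplicit false

namespace Pool.Agent.Helper96.T7

open Pool.Agent.Helper4.T7
open Pool.Agent.Helper93.TLE (DDE)

/-- Counting the numbers below `c`. -/
private theorem inner (A c : ℕ) (h : c ≤ A) :
    (∑ i ∈ Finset.range A, if i < c then 1 else 0) = c := by
  rw [← Finset.sum_filter, Finset.sum_const, smul_eq_mul, mul_one]
  have : (Finset.range A).filter (fun i => i < c) = Finset.range c := by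
    ext i
    simp only [Finset.mem_filter, Finset.mem_range]
    omega
  rw [this, Finset.card_range]

/-- Gauss. -/
private theorem gauss (M : ℕ) : (∑ j ∈ Finset.range M, (M - j)) * 2 = M * (M + 1) := by
  induction M with
  | zero => simp
  | succ M ih =>
    rw [Finset.sum_range_succ']
    have h : (∑ k ∈ Finset.range M, (M + 1 - (k + 1))) = ∑ k ∈ Finset.range M, (M - k) :=
      Finset.sum_congr rfl fun k _ => by omega
    rw [h, add_mul, ih]
    simp only [Nat.sub_zero]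
    ring

/-- Terms `g (M - j)` with `g 0 = 0` vanish beyond `M`. -/
private theorem cut (g : ℕ → ℕ) (hg : g 0 = 0) (B M : ℕ) (h : M ≤ B) :
    ∑ j ∈ Finset.range B, g (M - j) = ∑ j ∈ Finset.range M, g (M - j) := by
  symm
  apply Finset.sum_subset
  · intro j hj
    simp only [Finset.mem_range] at hj ⊢
    omega
  · intro j _ hj
    simp only [Finset.mem_range] at hj
    rw [Nat.sub_eq_zero_of_le (by omega), hg]

/-- The sum of the `5 (M - j) - e`. -/
private theorem sum5 (M e : ℕ) (he : e ≤ 5) :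
    (∑ j ∈ Finset.range M, (5 * (M - j) - e)) * 2 + 2 * e * M = 5 * (M * (M + 1)) := by
  have h : (∑ j ∈ Finset.range M, (5 * (M - j) - e)) + ∑ j ∈ Finset.range M, e =
      5 * ∑ j ∈ Finset.range M, (M - j) := by
    rw [Finset.mul_sum, ← Finset.sum_add_distrib]
    apply Finset.sum_congr rfl
    intro j hj
    rw [Finset.mem_range] at hj
    omega
  have h2 : (∑ j ∈ Finset.range M, e) = M * e := by simp
  rw [h2] at h
  have hg := gauss M
  nlinarith

/-- Splitting off the first coordinate. -/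
private theorem split (A : ℕ) (p : ℕ → ℕ → ℕ → Prop) [∀ c i j, Decidable (p c i j)] :
    ((Finset.range 8 ×ˢ Finset.range A ×ˢ Finset.range A).filter
      fun t : ℕ × ℕ × ℕ => p t.1 t.2.1 t.2.2).card =
      (∑ j ∈ Finset.range A, ∑ i ∈ Finset.range A, if p 0 i j then 1 else 0) +
      (∑ j ∈ Finset.range A, ∑ i ∈ Finset.range A, if p 1 i j then 1 else 0) +
      (∑ j ∈ Finset.range A, ∑ i ∈ Finset.range A, if p 2 i j then 1 else 0) +
      (∑ j ∈ Finset.range A, ∑ i ∈ Finset.range A, if p 3 i j then 1 else 0) +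
      (∑ j ∈ Finset.range A, ∑ i ∈ Finset.range A, if p 4 i j then 1 else 0) +
      (∑ j ∈ Finset.range A, ∑ i ∈ Finset.range A, if p 5 i j then 1 else 0) +
      (∑ j ∈ Finset.range A, ∑ i ∈ Finset.range A, if p 6 i j then 1 else 0) +
      ∑ j ∈ Finset.range A, ∑ i ∈ Finset.range A, if p 7 i j then 1 else 0 := by
  rw [Finset.card_filter, Finset.sum_product, Finset.sum_range_succ, Finset.sum_range_succ,
    Finset.sum_range_succ, Finset.sum_range_succ, Finset.sum_range_succ, Finset.sum_range_succ,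
    Finset.sum_range_succ, Finset.sum_range_one, Finset.sum_product_right,
    Finset.sum_product_right, Finset.sum_product_right, Finset.sum_product_right,
    Finset.sum_product_right, Finset.sum_product_right, Finset.sum_product_right,
    Finset.sum_product_right]

/-- Pairs with `i + j < M`. -/
private theorem pairs (A M : ℕ) (h : M ≤ A) :
    (∑ j ∈ Finset.range A, ∑ i ∈ Finset.range A, if i + j < M then 1 else 0) * 2 = M * (M + 1) := by
  rw [← gauss M, ← cut (fun x => x) rfl A M h]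
  congr 1
  apply Finset.sum_congr rfl
  intro j _
  rw [← inner A (M - j) (by omega)]
  apply Finset.sum_congr rfl
  intro i _
  by_cases h : i + j < M
  · rw [if_pos h, if_pos (by omega)]
  · rw [if_neg h, if_neg (by omega)]

/-- Pairs with `1 + i + j < M`. -/
private theorem pairs1 (A M : ℕ) (h : M ≤ A) (hM : 1 ≤ M) :
    (∑ j ∈ Finset.range A, ∑ i ∈ Finset.range A, if 1 + i + j < M then 1 else 0) * 2 + 2 * M =
      M * (M + 1) := by
  obtain ⟨N, rfl⟩ : ∃ N, M = N + 1 := ⟨M - 1, by omega⟩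
  have h1 := pairs A N (by omega)
  have h2 : (∑ j ∈ Finset.range A, ∑ i ∈ Finset.range A, if 1 + i + j < N + 1 then 1 else 0) =
      ∑ j ∈ Finset.range A, ∑ i ∈ Finset.range A, if i + j < N then 1 else 0 := by
    apply Finset.sum_congr rfl
    intro j _
    apply Finset.sum_congr rfl
    intro i _
    by_cases h : i + j < N
    · rw [if_pos h, if_pos (by omega)]
    · rw [if_neg h, if_neg (by omega)]
  rw [h2, h1]
  ring

/-- Pairs with `e + i + 5 j < 5 M`. -/
private theorem pairs5 (A M e : ℕ) (he : e ≤ 5) (h : 5 * M ≤ A) :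
    (∑ j ∈ Finset.range A, ∑ i ∈ Finset.range A, if e + i + 5 * j < 5 * M then 1 else 0) * 2 +
      2 * e * M = 5 * (M * (M + 1)) := by
  rw [← sum5 M e he, ← cut (fun x => 5 * x - e) (by simp) A M (by omega)]
  congr 2
  apply Finset.sum_congr rfl
  intro j _
  rw [← inner A (5 * (M - j) - e) (by omega)]
  apply Finset.sum_congr rfl
  intro i _
  by_cases h : e + i + 5 * j < 5 * M
  · rw [if_pos h, if_pos (by omega)]
  · rw [if_neg h, if_neg (by omega)]

private theorem dd_odd (m : ℕ) : ddQ (2 * m + 3) = 16 * 25 ^ m + 6 * 5 ^ m := by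
  unfold ddQ
  rw [if_pos (by omega)]
  have h : (2 * m + 3) / 2 - 1 = m := by omega
  rw [h]

private theorem dd_even (m : ℕ) : ddQ (2 * m + 4) = 80 * 25 ^ m + 2 * 5 ^ m := by
  unfold ddQ
  rw [if_neg (by omega)]
  have h : (2 * m + 4) / 2 - 2 = m := by omega
  rw [h]

private theorem DD_succ (n : ℕ) (hn : 2 ≤ n) : DDE 6 ddQ (n + 1) = DDE 6 ddQ n + ddQ (n + 1) := by
  unfold DDE
  rw [Finset.sum_Ico_succ_top (by omega : 3 ≤ n + 1)]
  ring

private theorem sq25 (m : ℕ) : (25 : ℕ) ^ m = 5 ^ m * 5 ^ m := by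
  rw [← mul_pow]
  norm_num

private theorem DD_evenOdd (m : ℕ) : DDE 6 ddQ (2 * m + 2) * 2 = 8 * (5 ^ m * 5 ^ m) + 4 * 5 ^ m ∧
    DDE 6 ddQ (2 * m + 3) * 2 = 40 * (5 ^ m * 5 ^ m) + 16 * 5 ^ m := by
  induction m with
  | zero => decide
  | succ m ih =>
    have h1 : DDE 6 ddQ (2 * (m + 1) + 2) * 2 =
        8 * (5 ^ (m + 1) * 5 ^ (m + 1)) + 4 * 5 ^ (m + 1) := by
      rw [show 2 * (m + 1) + 2 = (2 * m + 3) + 1 by ring, DD_succ _ (by omega), add_mul, ih.2,
        show 2 * m + 3 + 1 = 2 * m + 4 by ring, dd_even, sq25, pow_succ]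
      ring
    refine ⟨h1, ?_⟩
    rw [show 2 * (m + 1) + 3 = (2 * (m + 1) + 2) + 1 by ring, DD_succ _ (by omega), add_mul, h1,
      show 2 * (m + 1) + 2 + 1 = 2 * (m + 1) + 3 by ring, dd_odd, sq25]
    ring

private theorem aQ_le (c : ℕ) : aQ c ≤ 3 := by
  unfold aQ
  split_ifs <;> omega

private theorem bQ_le (c : ℕ) : bQ c ≤ aQ c := by
  unfold aQ bQ
  split_ifs <;> omega

/-- CNT. -/
theorem hCnt : TCnt := by
  constructor
  · intro k hk
    obtain ⟨m, rfl⟩ : ∃ m, k = m + 1 := ⟨k - 1, by omega⟩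
    have hq : (5 : ℕ) ^ (m + 1) = 5 * 5 ^ m := by rw [pow_succ]; ring
    have h3 : ((Finset.range 8 ×ˢ Finset.range (5 ^ (m + 1)) ×ˢ Finset.range (5 ^ (m + 1))).filter
        fun t : ℕ × ℕ × ℕ => aQ t.1 + t.2.1 + 5 * t.2.2 < 5 ^ (m + 1) ∧
          bQ t.1 + t.2.1 + t.2.2 < 5 ^ (m + 1 - 1)) =
        ((Finset.range 8 ×ˢ Finset.range (5 ^ (m + 1)) ×ˢ Finset.range (5 ^ (m + 1))).filter
        fun t : ℕ × ℕ × ℕ => bQ t.1 + t.2.1 + t.2.2 < 5 ^ m) := by
      apply Finset.filter_congr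
      intro t _
      rw [hq, show m + 1 - 1 = m by omega]
      have h1 := aQ_le t.1
      constructor
      · intro h
        exact h.2
      · intro h
        constructor <;> omega
    rw [h3, split (5 ^ (m + 1)) (fun c i j => bQ c + i + j < 5 ^ m)]
    have h4 := pairs (5 ^ (m + 1)) (5 ^ m) (by omega)
    have h5 := pairs1 (5 ^ (m + 1)) (5 ^ m) (by omega) (Nat.one_le_pow _ _ (by norm_num))
    have h7 : DDE 6 ddQ (2 * (m + 1)) * 2 = 8 * (5 ^ m * 5 ^ m) + 4 * 5 ^ m := (DD_evenOdd m).1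
    have b0 : bQ 0 = 0 := rfl
    have b1 : bQ 1 = 0 := rfl
    have b2 : bQ 2 = 0 := rfl
    have b3 : bQ 3 = 0 := rfl
    have b4 : bQ 4 = 0 := rfl
    have b5 : bQ 5 = 0 := rfl
    have b6 : bQ 6 = 1 := rfl
    have b7 : bQ 7 = 1 := rfl
    simp only [b0, b1, b2, b3, b4, b5, b6, b7, zero_add]
    generalize (∑ j ∈ Finset.range (5 ^ (m + 1)), ∑ i ∈ Finset.range (5 ^ (m + 1)),
      if i + j < 5 ^ m then 1 else 0) = x at h4 ⊢
    generalize (∑ j ∈ Finset.range (5 ^ (m + 1)), ∑ i ∈ Finset.range (5 ^ (m + 1)),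
      if 1 + i + j < 5 ^ m then 1 else 0) = y at h5 ⊢
    generalize DDE 6 ddQ (2 * (m + 1)) = D at h7 ⊢
    generalize (5 : ℕ) ^ m = M at h4 h5 h7 ⊢
    nlinarith
  · intro k hk
    obtain ⟨m, rfl⟩ : ∃ m, k = m + 1 := ⟨k - 1, by omega⟩
    have hq : (5 : ℕ) ^ (m + 1) = 5 * 5 ^ m := by rw [pow_succ]; ring
    have h3 : ((Finset.range 8 ×ˢ Finset.range (5 ^ (m + 1)) ×ˢ Finset.range (5 ^ (m + 1))).filter
        fun t : ℕ × ℕ × ℕ => aQ t.1 + t.2.1 + 5 * t.2.2 < 5 ^ (m + 1) ∧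
          bQ t.1 + t.2.1 + t.2.2 < 5 ^ (m + 1)) =
        ((Finset.range 8 ×ˢ Finset.range (5 ^ (m + 1)) ×ˢ Finset.range (5 ^ (m + 1))).filter
        fun t : ℕ × ℕ × ℕ => aQ t.1 + t.2.1 + 5 * t.2.2 < 5 * 5 ^ m) := by
      apply Finset.filter_congr
      intro t _
      rw [hq]
      have h1 := bQ_le t.1
      constructor
      · intro h
        exact h.1
      · intro h
        constructor <;> omega
    rw [h3, split (5 ^ (m + 1)) (fun c i j => aQ c + i + 5 * j < 5 * 5 ^ m)]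
    have h4 := pairs5 (5 ^ (m + 1)) (5 ^ m) 0 (by omega) (by omega)
    have h4' := pairs5 (5 ^ (m + 1)) (5 ^ m) 1 (by omega) (by omega)
    have h5 := pairs5 (5 ^ (m + 1)) (5 ^ m) 2 (by omega) (by omega)
    have h6 := pairs5 (5 ^ (m + 1)) (5 ^ m) 3 (by omega) (by omega)
    have h7 : DDE 6 ddQ (2 * (m + 1) + 1) * 2 = 40 * (5 ^ m * 5 ^ m) + 16 * 5 ^ m := (DD_evenOdd m).2
    have b0 : aQ 0 = 0 := rfl
    have b1 : aQ 1 = 0 := rfl
    have b2 : aQ 2 = 0 := rfl
    have b3 : aQ 3 = 1 := rfl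
    have b4 : aQ 4 = 2 := rfl
    have b5 : aQ 5 = 3 := rfl
    have b6 : aQ 6 = 3 := rfl
    have b7 : aQ 7 = 3 := rfl
    simp only [b0, b1, b2, b3, b4, b5, b6, b7]
    generalize (∑ j ∈ Finset.range (5 ^ (m + 1)), ∑ i ∈ Finset.range (5 ^ (m + 1)),
      if 0 + i + 5 * j < 5 * 5 ^ m then 1 else 0) = x at h4 ⊢
    generalize (∑ j ∈ Finset.range (5 ^ (m + 1)), ∑ i ∈ Finset.range (5 ^ (m + 1)),
      if 1 + i + 5 * j < 5 * 5 ^ m then 1 else 0) = w at h4' ⊢
    generalize (∑ j ∈ Finset.range (5 ^ (m + 1)), ∑ i ∈ Finset.range (5 ^ (m + 1)),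
      if 2 + i + 5 * j < 5 * 5 ^ m then 1 else 0) = y at h5 ⊢
    generalize (∑ j ∈ Finset.range (5 ^ (m + 1)), ∑ i ∈ Finset.range (5 ^ (m + 1)),
      if 3 + i + 5 * j < 5 * 5 ^ m then 1 else 0) = z at h6 ⊢
    generalize DDE 6 ddQ (2 * (m + 1) + 1) = D at h7 ⊢
    generalize (5 : ℕ) ^ m = M at h4 h4' h5 h6 h7 ⊢
    nlinarith

end Pool.Agent.Helper96.T7
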